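import Mathlib

/-!
# Sections of maps with isometric fibres (MP_dda0f0_gt)

`p : E → B` is a continuous map from a compact metric space all of whose fibres are isometric to a
compact metric space `M` with locally round balls.  If `φ : E → Y` is continuous and a point `y₀`
has in every fibre a nonempty preimage of small diameter, then `p` has a continuous section.
-/

open Metric Set Topology Filter

namespace Pool.Agent.FEM

/-- The balls of radius at most `r` of the metric space `M` are *round*: for two distinct points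
`x`, `y` at distance less than `r` there is a point `z` which is, for every `w` at distance less
than `r` from both, strictly closer to `w` than the farther one of `x` and `y`. -/
def RoundBelow (M : Type*) [MetricSpace M] (r : ℝ) : Prop :=
  ∀ x y : M, x ≠ y → dist x y < r → ∃ z : M, ∀ w : M, dist x w < r → dist y w < r →
    dist z w < max (dist x w) (dist y w)

/-- All fibres of `p : E → B` are isometric to `M`. -/
def IsometricFibers (M : Type*) {E B : Type*} [MetricSpace M] [MetricSpace E] (p : E → B) : Prop :=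
  ∀ b : B, Nonempty (M ≃ᵢ (p ⁻¹' {b} : Set E))

/-- An isometry of a compact metric space into itself is surjective. -/
lemma surjective_of_isometry {M : Type*} [MetricSpace M] [CompactSpace M] {f : M → M}
    (hf : Isometry f) : Function.Surjective f := by
  intro y
  by_contra hy
  have hcl : IsClosed (range f) := (isCompact_range hf.continuous).isClosed
  have hy' : y ∉ range f := fun ⟨x, hx⟩ => hy ⟨x, hx⟩
  obtain ⟨δ, hδ, hball⟩ := Metric.isOpen_iff.1 hcl.isOpen_compl y hy'
  have hfar : ∀ x, δ ≤ dist y (f x) := by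
    intro x
    by_contra h
    push Not at h
    exact hball (by rw [mem_ball, dist_comm]; exact h) ⟨x, rfl⟩
  have hit : ∀ n : ℕ, Isometry (f^[n]) := fun n => by
    induction n with
    | zero => exact isometry_id
    | succ n ih => rw [Function.iterate_succ]; exact ih.comp hf
  have hsep : ∀ m n : ℕ, m < n → δ ≤ dist (f^[m] y) (f^[n] y) := by
    intro m n hmn
    obtain ⟨k, rfl⟩ := Nat.exists_eq_add_of_lt hmn
    rw [show m + k + 1 = m + (k + 1) by ring, Function.iterate_add_apply, (hit m).dist_eq,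
      Function.iterate_succ_apply']
    exact hfar _
  obtain ⟨a, φ, hφ, hlim⟩ := CompactSpace.tendsto_subseq (fun n : ℕ => f^[n] y)
  have hc := hlim.cauchySeq
  rw [Metric.cauchySeq_iff'] at hc
  obtain ⟨N, hN⟩ := hc δ hδ
  have h1 := hN (N + 1) (by omega)
  have h2 := hsep (φ N) (φ (N + 1)) (hφ (by omega))
  simp only [Function.comp] at h1
  rw [dist_comm] at h1
  linarith

section Limit

variable {M E B : Type*} [MetricSpace M] [CompactSpace M] [MetricSpace E] [CompactSpace E]
  [TopologicalSpace B] [T2Space B] {p : E → B}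

/-- Limits of the isometries onto the fibres. -/
lemma exists_limit (hp : Continuous p) {ι : B → M → E} (hι : ∀ b, Isometry (ι b))
    (hr : ∀ b, range (ι b) = p ⁻¹' {b}) {A : Type*} (u : Ultrafilter A) {β : A → B} {b₀ : B}
    (hβ : Tendsto β u (𝓝 b₀)) :
    ∃ L : M → E, Isometry L ∧ range L = p ⁻¹' {b₀} ∧
      ∀ (g : A → M) (m : M), Tendsto g u (𝓝 m) → Tendsto (fun a => ι (β a) (g a)) u (𝓝 (L m)) := by
  have hlim : ∀ m : M, ∃ e : E, Tendsto (fun a => ι (β a) m) u (𝓝 e) := by
    intro m
    obtain ⟨e, -, he⟩ := isCompact_univ.ultrafilter_le_nhds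
      (u.map (fun a => ι (β a) m)) (by simp)
    exact ⟨e, he⟩
  choose L hL using hlim
  have hLi : Isometry L := by
    refine Isometry.of_dist_eq fun m m' => ?_
    have h1 : Tendsto (fun a => dist (ι (β a) m) (ι (β a) m')) u (𝓝 (dist (L m) (L m'))) :=
      (hL m).dist (hL m')
    have h2 : (fun a => dist (ι (β a) m) (ι (β a) m')) = fun _ => dist m m' := by
      funext a
      exact (hι _).dist_eq _ _
    rw [h2] at h1
    exact (tendsto_nhds_unique h1 tendsto_const_nhds)
  have hpL : ∀ m, p (L m) = b₀ := by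
    intro m
    have h1 : Tendsto (fun a => p (ι (β a) m)) u (𝓝 (p (L m))) :=
      (hp.tendsto (L m)).comp (hL m)
    have h2 : (fun a => p (ι (β a) m)) = β := by
      funext a
      have : ι (β a) m ∈ p ⁻¹' {β a} := by rw [← hr]; exact ⟨m, rfl⟩
      exact this
    rw [h2] at h1
    exact tendsto_nhds_unique h1 hβ
  refine ⟨L, hLi, ?_, ?_⟩
  · apply Subset.antisymm
    · rintro _ ⟨m, rfl⟩
      exact hpL m
    · have hmem : ∀ m, L m ∈ range (ι b₀) := by
        intro m
        rw [hr]
        exact hpL m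
      choose k hk using hmem
      have hki : Isometry k := by
        refine Isometry.of_dist_eq fun m m' => ?_
        rw [← (hι b₀).dist_eq, hk, hk, hLi.dist_eq]
      rw [← hr]
      rintro _ ⟨m, rfl⟩
      obtain ⟨m', hm'⟩ := surjective_of_isometry hki m
      exact ⟨m', by rw [← hk, hm']⟩
  · intro g m hg
    rw [tendsto_iff_dist_tendsto_zero] at hg ⊢
    have h0 := hL m
    rw [tendsto_iff_dist_tendsto_zero] at h0
    have h1 := hg.add h0
    rw [add_zero] at h1
    refine squeeze_zero (fun _ => dist_nonneg) (fun a => ?_) h1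
    have h2 := dist_triangle (ι (β a) (g a)) (ι (β a) m) (L m)
    rw [(hι (β a)).dist_eq] at h2
    exact h2

end Limit

section Section

variable {M E B : Type*} [MetricSpace M] [CompactSpace M] [MetricSpace E] [CompactSpace E]
  [TopologicalSpace B] [T2Space B] {p : E → B}

/-- `x` is a *centre* of its fibre for the weight `W`. -/
def IsCentre (p : E → B) (W : E → ℝ) (x : E) : Prop :=
  ∀ x', p x' = p x → ∀ c : ℝ, (∀ e, p e = p x → W e * dist x' e ≤ c) →
    ∀ e, p e = p x → W e * dist x e ≤ c

/-- The set of centres is closed. -/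
lemma isClosed_centre (hp : Continuous p) {ι : B → M → E} (hι : ∀ b, Isometry (ι b))
    (hr : ∀ b, range (ι b) = p ⁻¹' {b}) {W : E → ℝ} (hW : Continuous W) :
    IsClosed {x | IsCentre p W x} := by
  rw [isClosed_iff_ultrafilter]
  intro x u hu hmem x' hx' c hc e he
  have hβ : Tendsto (fun y : E => p y) u (𝓝 (p x)) := (hp.tendsto x).mono_left hu
  obtain ⟨L, hLi, hLr, hL⟩ := exists_limit hp hι hr u hβ
  obtain ⟨m', hm'⟩ : x' ∈ range L := by rw [hLr]; exact hx'
  obtain ⟨m, hm⟩ : e ∈ range L := by rw [hLr]; exact he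
  -- a maximiser for the competitor
  have hmax : ∀ y : E, ∃ k : M, ∀ k' : M,
      W (ι (p y) k') * dist (ι (p y) m') (ι (p y) k') ≤
        W (ι (p y) k) * dist (ι (p y) m') (ι (p y) k) := by
    intro y
    have hcont : Continuous fun k : M =>
        W (ι (p y) k) * dist (ι (p y) m') (ι (p y) k) :=
      (hW.comp (hι _).continuous).mul (continuous_const.dist (hι _).continuous)
    obtain ⟨k, -, hk⟩ := isCompact_univ.exists_isMaxOn ⟨m', mem_univ _⟩ hcont.continuousOn
    exact ⟨k, fun k' => hk (mem_univ k')⟩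
  choose k hk using hmax
  obtain ⟨ks, -, hks⟩ := isCompact_univ.ultrafilter_le_nhds (u.map k) (by simp)
  have hks' : Tendsto k u (𝓝 ks) := hks
  have h1 := hL (fun _ => m) m tendsto_const_nhds
  have h2 := hL (fun _ => m') m' tendsto_const_nhds
  have h3 := hL k ks hks'
  rw [hm] at h1
  rw [hm'] at h2
  have hid : Tendsto (fun y : E => y) u (𝓝 x) := hu
  have hl : Tendsto (fun y => W (ι (p y) m) * dist y (ι (p y) m)) u (𝓝 (W e * dist x e)) :=
    ((hW.tendsto _).comp h1).mul (hid.dist h1)
  have hrr : Tendsto (fun y => W (ι (p y) (k y)) * dist (ι (p y) m') (ι (p y) (k y))) u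
      (𝓝 (W (L ks) * dist x' (L ks))) :=
    ((hW.tendsto _).comp h3).mul (h2.dist h3)
  have hle : W e * dist x e ≤ W (L ks) * dist x' (L ks) := by
    refine le_of_tendsto_of_tendsto hl hrr ?_
    filter_upwards [hmem] with y hy
    have hfib : ∀ k' : M, p (ι (p y) k') = p y := by
      intro k'
      have : ι (p y) k' ∈ p ⁻¹' {p y} := by rw [← hr]; exact ⟨k', rfl⟩
      exact this
    refine hy (ι (p y) m') (hfib m') _ ?_ (ι (p y) m) (hfib m)
    intro e' he'
    obtain ⟨k', rfl⟩ : e' ∈ range (ι (p y)) := by rw [hr]; exact he'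
    exact hk y k'
  refine hle.trans (hc _ ?_)
  have : L ks ∈ p ⁻¹' {p x} := by rw [← hLr]; exact ⟨ks, rfl⟩
  exact this

/-- Existence of a centre in every fibre. -/
lemma exists_centre (hp : Continuous p) {W : E → ℝ} (hW : Continuous W) (b : B)
    (hb : ∃ e, p e = b) : ∃ x, p x = b ∧ IsCentre p W x := by
  have hK : IsCompact (p ⁻¹' {b}) := (isClosed_singleton.preimage hp).isCompact
  have hne : (p ⁻¹' {b}).Nonempty := by
    obtain ⟨e, he⟩ := hb
    exact ⟨e, he⟩
  have hcont : Continuous (fun x : E => sSup ((fun e => W e * dist x e) '' (p ⁻¹' {b}))) := by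
    apply IsCompact.continuous_sSup hK
    exact (hW.comp continuous_snd).mul (continuous_fst.dist continuous_snd)
  obtain ⟨x, hx, hmin⟩ := hK.exists_isMinOn hne hcont.continuousOn
  refine ⟨x, hx, ?_⟩
  intro x' hx' c hc e he
  have hpx : p x = b := hx
  rw [hpx] at hx' hc he
  have hbdd : ∀ y : E, BddAbove ((fun e => W e * dist y e) '' (p ⁻¹' {b})) := by
    intro y
    exact (hK.image (hW.mul (continuous_const.dist continuous_id))).bddAbove
  calc W e * dist x e ≤ sSup ((fun e => W e * dist x e) '' (p ⁻¹' {b})) :=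
        le_csSup (hbdd x) ⟨e, he, rfl⟩
    _ ≤ sSup ((fun e => W e * dist x' e) '' (p ⁻¹' {b})) := hmin hx'
    _ ≤ c := by
        apply csSup_le (hne.image _)
        rintro _ ⟨e', he', rfl⟩
        exact hc e' he'

/-- The section theorem. -/
theorem exists_section {Y : Type*} [MetricSpace Y] {r : ℝ} (hM : RoundBelow M r)
    (hp : Continuous p) (hiso : IsometricFibers M p) {φ : E → Y} (hφ : Continuous φ) (y₀ : Y)
    (hne : ∀ b, ∃ e, p e = b ∧ φ e = y₀)
    (hsm : ∀ e e', p e = p e' → φ e = y₀ → φ e' = y₀ → dist e e' < r / 2) :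
    ∃ s : B → E, Continuous s ∧ ∀ b, p (s b) = b := by
  classical
  -- the isometries onto the fibres
  have j : ∀ b : B, M ≃ᵢ (p ⁻¹' {b} : Set E) := fun b => (hiso b).some
  set ι : B → M → E := fun b m => (j b m : E) with hιdef
  have hι : ∀ b, Isometry (ι b) := fun b => isometry_subtype_coe.comp (j b).isometry
  have hr : ∀ b, range (ι b) = p ⁻¹' {b} := by
    intro b
    ext e
    constructor
    · rintro ⟨m, rfl⟩
      exact (j b m).2
    · intro he
      exact ⟨(j b).symm ⟨e, he⟩, by simp [hιdef]⟩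
  -- the threshold
  obtain ⟨δ, hδ, hδs⟩ : ∃ δ > 0, ∀ e e', p e = p e' → dist (φ e) y₀ < δ → dist (φ e') y₀ < δ →
      dist e e' < r / 2 := by
    set K : Set (E × E) := {q | p q.1 = p q.2 ∧ r / 2 ≤ dist q.1 q.2} with hK
    have hKc : IsCompact K := by
      apply IsClosed.isCompact
      exact (isClosed_eq (hp.comp continuous_fst) (hp.comp continuous_snd)).inter
        (isClosed_le continuous_const (continuous_fst.dist continuous_snd))
    have hg : Continuous fun q : E × E => max (dist (φ q.1) y₀) (dist (φ q.2) y₀) :=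
      ((hφ.comp continuous_fst).dist continuous_const).max
        ((hφ.comp continuous_snd).dist continuous_const)
    rcases K.eq_empty_or_nonempty with hKe | hKn
    · refine ⟨1, one_pos, fun e e' he _ _ => ?_⟩
      by_contra hcon
      push Not at hcon
      have : (e, e') ∈ K := ⟨he, hcon⟩
      rw [hKe] at this
      exact this
    · obtain ⟨q, hq, hmin⟩ := hKc.exists_isMinOn hKn hg.continuousOn
      refine ⟨max (dist (φ q.1) y₀) (dist (φ q.2) y₀), ?_, ?_⟩
      · by_contra hcon
        push Not at hcon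
        have h1 : dist (φ q.1) y₀ = 0 :=
          le_antisymm ((le_max_left _ _).trans hcon) dist_nonneg
        have h2 : dist (φ q.2) y₀ = 0 :=
          le_antisymm ((le_max_right _ _).trans hcon) dist_nonneg
        have h3 := hsm q.1 q.2 hq.1 (dist_eq_zero.1 h1) (dist_eq_zero.1 h2)
        exact absurd hq.2 (not_le.2 h3)
      · intro e e' he h1 h2
        by_contra hcon
        push Not at hcon
        have h3 : (e, e') ∈ K := ⟨he, hcon⟩
        have h4 := hmin h3
        exact absurd (max_lt h1 h2) (not_lt.2 h4)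
  set W : E → ℝ := fun e => max 0 (δ - dist (φ e) y₀) with hWdef
  have hWc : Continuous W := continuous_const.max (continuous_const.sub (hφ.dist continuous_const))
  have hW0 : ∀ e, 0 ≤ W e := fun e => le_max_left _ _
  have hWδ : ∀ e, W e ≤ δ := fun e => max_le hδ.le (by linarith [dist_nonneg (x := φ e) (y := y₀)])
  have hWpos : ∀ e, 0 < W e → dist (φ e) y₀ < δ := by
    intro e he
    rcases lt_max_iff.1 he with h | h
    · exact absurd h (lt_irrefl _)
    · linarith
  -- uniqueness
  have huniq : ∀ x₁ x₂ : E, p x₁ = p x₂ → IsCentre p W x₁ → IsCentre p W x₂ → x₁ = x₂ := by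
    intro x₁ x₂ h12 hx₁ hx₂
    by_contra hne12
    obtain ⟨e₀, he₀, hφ₀⟩ := hne (p x₁)
    have hWe₀ : W e₀ = δ := by simp [hWdef, hφ₀, hδ.le]
    have hK : IsCompact (p ⁻¹' {p x₁}) := (isClosed_singleton.preimage hp).isCompact
    have hneK : (p ⁻¹' {p x₁}).Nonempty := ⟨x₁, rfl⟩
    -- maximum for a point `x`
    have hmax : ∀ x : E, ∃ e, p e = p x₁ ∧ ∀ e', p e' = p x₁ → W e' * dist x e' ≤ W e * dist x e := by
      intro x
      obtain ⟨e, he, hm⟩ := hK.exists_isMaxOn hneK
        (f := fun e => W e * dist x e) (hWc.mul (continuous_const.dist continuous_id)).continuousOn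
      exact ⟨e, he, fun e' he' => hm he'⟩
    obtain ⟨a₁, ha₁, hm₁⟩ := hmax x₁
    obtain ⟨a₀, ha₀, hm₀⟩ := hmax e₀
    set c := W a₁ * dist x₁ a₁ with hcdef
    -- value at `e₀` is less than `δ * (r/2)`
    have hrpos : 0 < r / 2 := by
      have := hsm e₀ e₀ rfl hφ₀ hφ₀
      rwa [dist_self] at this
    have hval : W a₀ * dist e₀ a₀ < δ * (r / 2) := by
      rcases eq_or_lt_of_le (hW0 a₀) with h | h
      · rw [← h, zero_mul]
        positivity
      · have h1 : dist e₀ a₀ < r / 2 :=
          hδs e₀ a₀ (he₀.trans ha₀.symm) (by rw [hφ₀, dist_self]; exact hδ) (hWpos a₀ h)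
        calc W a₀ * dist e₀ a₀ ≤ δ * dist e₀ a₀ :=
              mul_le_mul_of_nonneg_right (hWδ a₀) dist_nonneg
          _ < δ * (r / 2) := mul_lt_mul_of_pos_left h1 hδ
    have hx₁' : ∀ e, p e = p x₁ → W e * dist x₁ e ≤ W a₀ * dist e₀ a₀ :=
      fun e he => hx₁ e₀ he₀ _ hm₀ e he
    have hx₂' : ∀ e, p e = p x₁ → W e * dist x₂ e ≤ c := by
      intro e he
      exact hx₂ x₁ h12 c (fun e' he' => hm₁ e' (he'.trans h12.symm)) e (he.trans h12)
    have hcle : c ≤ W a₀ * dist e₀ a₀ := hx₁' a₁ ha₁
    have hd : ∀ x : E, (W e₀ * dist x e₀ ≤ c) → dist x e₀ < r / 2 := by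
      intro x hx
      rw [hWe₀] at hx
      have : δ * dist x e₀ < δ * (r / 2) := lt_of_le_of_lt (hx.trans hcle) hval
      exact lt_of_mul_lt_mul_left this hδ.le
    have hd₁ : dist x₁ e₀ < r / 2 := hd x₁ (hm₁ e₀ he₀)
    have hd₂ : dist x₂ e₀ < r / 2 := hd x₂ (hx₂' e₀ he₀)
    have h12r : dist x₁ x₂ < r := by
      have := dist_triangle_right x₁ x₂ e₀
      linarith
    -- the better point
    obtain ⟨m₁, hm₁'⟩ : x₁ ∈ range (ι (p x₁)) := by rw [hr]; rfl
    obtain ⟨m₂, hm₂'⟩ : x₂ ∈ range (ι (p x₁)) := by rw [hr]; exact h12.symm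
    have hmne : m₁ ≠ m₂ := by
      intro h
      exact hne12 (by rw [← hm₁', ← hm₂', h])
    obtain ⟨z, hz⟩ := hM m₁ m₂ hmne (by
      rw [← (hι (p x₁)).dist_eq, hm₁', hm₂']; exact h12r)
    -- `c` is positive
    have hcpos : 0 < c := by
      by_contra hcon
      push Not at hcon
      have h1 : dist x₁ e₀ = 0 := by
        have := hm₁ e₀ he₀
        rw [hWe₀] at this
        have h3 : δ * dist x₁ e₀ ≤ 0 := this.trans hcon
        have h4 := dist_nonneg (x := x₁) (y := e₀)
        nlinarith
      have h2 : dist x₂ e₀ = 0 := by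
        have := hx₂' e₀ he₀
        rw [hWe₀] at this
        have h3 : δ * dist x₂ e₀ ≤ 0 := this.trans hcon
        have h4 := dist_nonneg (x := x₂) (y := e₀)
        nlinarith
      exact hne12 ((dist_eq_zero.1 h1).trans (dist_eq_zero.1 h2).symm)
    set zz : E := ι (p x₁) z with hzz
    have hpz : p zz = p x₁ := by
      have : zz ∈ p ⁻¹' {p x₁} := by rw [← hr]; exact ⟨z, rfl⟩
      exact this
    obtain ⟨az, haz, hmz⟩ := hmax zz
    have hlt : W az * dist zz az < c := by
      rcases eq_or_lt_of_le (hW0 az) with h | h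
      · rw [← h, zero_mul]
        exact hcpos
      · have h1 : dist az e₀ < r / 2 :=
          hδs az e₀ (haz.trans he₀.symm) (hWpos az h) (by rw [hφ₀, dist_self]; exact hδ)
        have h2 : dist x₁ az < r := by
          have := dist_triangle_right x₁ az e₀
          linarith
        have h3 : dist x₂ az < r := by
          have := dist_triangle_right x₂ az e₀
          linarith
        obtain ⟨w, hw⟩ : az ∈ range (ι (p x₁)) := by rw [hr]; exact haz
        have h4 := hz w (by rw [← (hι (p x₁)).dist_eq, hm₁', hw]; exact h2)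
          (by rw [← (hι (p x₁)).dist_eq, hm₂', hw]; exact h3)
        rw [← (hι (p x₁)).dist_eq z, ← (hι (p x₁)).dist_eq m₁, ← (hι (p x₁)).dist_eq m₂, hm₁',
          hm₂', hw, ← hzz] at h4
        rcases lt_max_iff.1 h4 with h5 | h5
        · exact lt_of_lt_of_le (mul_lt_mul_of_pos_left h5 h) (hm₁ az haz)
        · exact lt_of_lt_of_le (mul_lt_mul_of_pos_left h5 h) (hx₂' az haz)
    have hfin := hx₁ zz hpz _ hmz a₁ ha₁
    linarith
  have hex : ∀ b, ∃ x, p x = b ∧ IsCentre p W x := by
    intro b
    obtain ⟨e, he, -⟩ := hne b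
    exact exists_centre hp hWc b ⟨e, he⟩
  choose s hs hsc using hex
  refine ⟨s, ?_, hs⟩
  rw [continuous_iff_ultrafilter]
  intro b v hv
  obtain ⟨z, -, hz⟩ := isCompact_univ.ultrafilter_le_nhds (v.map s) (by simp)
  have hz' : Tendsto s v (𝓝 z) := hz
  have hzc : IsCentre p W z := by
    have hcl := isClosed_centre hp hι hr hWc
    exact hcl.mem_of_tendsto hz' (Eventually.of_forall hsc)
  have hpz : p z = b := by
    have h1 : Tendsto (fun b => p (s b)) v (𝓝 (p z)) := (hp.tendsto z).comp hz'
    have h2 : (fun b => p (s b)) = fun b => b := funext hs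
    rw [h2] at h1
    exact tendsto_nhds_unique h1 hv
  have : z = s b := huniq z (s b) (hpz.trans (hs b).symm) hzc (hsc b)
  rw [← this]
  exact hz'

end Section

end Pool.Agent.FEM
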