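import Pool.Agent.FEM.Sphere

/-!
# The injectivity property for spaces with locally round balls
-/

open Metric Set Topology Filter Module TopologicalSpace

namespace Pool.Agent.FEM

/-- A contravariant functor from compact metrizable spaces and continuous maps to sets (for
instance one degree of a generalised cohomology theory with its Čech extension). -/
structure ContraFunctor where
  /-- the value on a space -/
  obj : (X : Type) → [TopologicalSpace X] → [CompactSpace X] → [MetrizableSpace X] → Type
  /-- the induced maps -/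
  map : {X Y : Type} → [TopologicalSpace X] → [CompactSpace X] → [MetrizableSpace X] →
    [TopologicalSpace Y] → [CompactSpace Y] → [MetrizableSpace Y] → C(X, Y) → obj Y → obj X
  map_id : ∀ {X : Type} [TopologicalSpace X] [CompactSpace X] [MetrizableSpace X] (a : obj X),
    map (ContinuousMap.id X) a = a
  map_comp : ∀ {X Y Z : Type} [TopologicalSpace X] [CompactSpace X] [MetrizableSpace X]
    [TopologicalSpace Y] [CompactSpace Y] [MetrizableSpace Y]
    [TopologicalSpace Z] [CompactSpace Z] [MetrizableSpace Z] (g : C(Y, Z)) (f : C(X, Y))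
    (a : obj Z), map (g.comp f) a = map f (map g a)

/-- The conclusion of Q1 for the compact metric space `M` with the given `ε` for all bases and all
cohomology theories.  `E` is a compact metric space, `p : E → B` is a continuous map onto a compact
metrizable space all of whose fibres are isometric to `M`, `f : E → M × B` is a fibrewise `ε`-map; then `p` has a
continuous section, and `f^* ∘ π^*` is injective for every contravariant functor. -/
def InjectivityAt (M : Type) [MetricSpace M] [CompactSpace M] (ε : ℝ) : Prop :=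
  ∀ (B E : Type) [TopologicalSpace B] [CompactSpace B] [MetrizableSpace B]
    [MetricSpace E] [CompactSpace E] (p : C(E, B)) (f : C(E, M × B)),
    IsometricFibers M p → (∀ e, (f e).2 = p e) →
    (∀ q : M × B, Metric.diam (f ⁻¹' {q}) < ε) →
    (∃ s : C(B, E), ∀ b, p (s b) = b) ∧
    ∀ h : ContraFunctor, Function.Injective fun a : h.obj B =>
      h.map f (h.map (ContinuousMap.snd : C(M × B, B)) a)

/-- Continuous self-maps of `M` whose point preimages have diameter less than `ε` are
surjective. -/
def SmallMapsSurjective (M : Type) [MetricSpace M] (ε : ℝ) : Prop :=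
  ∀ g : C(M, M), (∀ y, Metric.diam (g ⁻¹' {y}) < ε) → Function.Surjective g

lemma injective_of_section {M B E : Type} [MetricSpace M] [CompactSpace M] [TopologicalSpace B]
    [CompactSpace B] [MetrizableSpace B] [MetricSpace E] [CompactSpace E] {p : C(E, B)}
    {f : C(E, M × B)} (hf : ∀ e, (f e).2 = p e) {s : C(B, E)} (hs : ∀ b, p (s b) = b)
    (h : ContraFunctor) : Function.Injective fun a : h.obj B =>
      h.map f (h.map (ContinuousMap.snd : C(M × B, B)) a) := by
  have h1 : (ContinuousMap.snd : C(M × B, B)).comp f = p := ContinuousMap.ext hf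
  have h2 : p.comp s = ContinuousMap.id B := ContinuousMap.ext hs
  intro a a' haa
  simp only [← h.map_comp, h1] at haa
  have h3 := congrArg (h.map s) haa
  rw [← h.map_comp, ← h.map_comp, h2, h.map_id, h.map_id] at h3
  exact h3

lemma continuousMap_diam {M : Type*} [MetricSpace M] [CompactSpace M] {Y : Type*} {g : M → Y}
    {y : Y} {ε : ℝ} (h : Metric.diam (g ⁻¹' {y}) < ε) {x x' : M} (hx : g x = y) (hx' : g x' = y) :
    dist x x' < ε :=
  lt_of_le_of_lt (Metric.dist_le_diam_of_mem (isCompact_univ.isBounded.subset (subset_univ _))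
    hx hx') h

theorem section_of_round (M : Type) [MetricSpace M] [CompactSpace M] {r : ℝ}
    (hM : RoundBelow M r) {B E Y : Type} [TopologicalSpace B] [CompactSpace B] [MetrizableSpace B]
    [MetricSpace E] [CompactSpace E] [MetricSpace Y] [CompactSpace Y]
    (p : C(E, B)) (hiso : IsometricFibers M p) (f : C(E, Y × B)) (hf : ∀ e, (f e).2 = p e)
    (y₀ : Y) (hne : ∀ b, (f ⁻¹' {(y₀, b)}).Nonempty)
    (hsm : ∀ b, Metric.diam (f ⁻¹' {(y₀, b)}) < r / 2) :
    (∃ s : C(B, E), ∀ b, p (s b) = b) ∧
      ∀ h : ContraFunctor, Function.Injective fun a : h.obj B =>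
        h.map f (h.map (ContinuousMap.snd : C(Y × B, B)) a) := by
  suffices hsec : ∃ s : B → E, Continuous s ∧ ∀ b, p (s b) = b by
    obtain ⟨s, hs, hps⟩ := hsec
    exact ⟨⟨⟨s, hs⟩, hps⟩, fun h => injective_of_section hf (s := ⟨s, hs⟩) hps h⟩
  refine exists_section (M := M) (p := p) (Y := Y) hM p.continuous hiso
    (φ := fun e => (f e).1) (continuous_fst.comp f.continuous) y₀ ?_ ?_
  · intro b
    obtain ⟨e, he⟩ := hne b
    have he' : f e = (y₀, b) := he
    exact ⟨e, by rw [← hf e, he'], by rw [he']⟩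
  · intro e e' hee he he'
    refine continuousMap_diam (hsm (p e)) (x := e) (x' := e') ?_ ?_
    · exact Prod.ext he (hf e)
    · exact Prod.ext he' ((hf e').trans hee.symm)

theorem injectivity_of_round (M : Type) [MetricSpace M] [CompactSpace M] [Nonempty M] {r ε₀ : ℝ}
    (hM : RoundBelow M r) (hS : SmallMapsSurjective M ε₀) :
    InjectivityAt M (min ε₀ (r / 2)) := by
  intro B E _ _ _ _ _ p f hiso hfp hsm
  obtain ⟨y₀⟩ := ‹Nonempty M›
  suffices hsec : ∃ s : B → E, Continuous s ∧ ∀ b, p (s b) = b by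
    obtain ⟨s, hs, hps⟩ := hsec
    exact ⟨⟨⟨s, hs⟩, hps⟩, fun h => injective_of_section hfp (s := ⟨s, hs⟩) hps h⟩
  refine exists_section (M := M) (p := p) (Y := M) hM p.continuous hiso
    (φ := fun e => (f e).1) (continuous_fst.comp f.continuous) y₀ ?_ ?_
  · intro b
    obtain ⟨j⟩ := hiso b
    have hjc : Continuous fun m : M => ((j m : (p ⁻¹' {b} : Set E)) : E) :=
      continuous_subtype_val.comp j.continuous
    let g : C(M, M) := ⟨fun m => (f (j m : E)).1, continuous_fst.comp (f.continuous.comp hjc)⟩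
    have hpj : ∀ m, p (j m : E) = b := fun m => (j m).2
    obtain ⟨m, hm⟩ := hS g (by
      intro y
      have h1 : Metric.diam (f ⁻¹' {(y, b)}) < ε₀ := lt_of_lt_of_le (hsm (y, b)) (min_le_left _ _)
      refine lt_of_le_of_lt ?_ h1
      apply Metric.diam_le_of_forall_dist_le Metric.diam_nonneg
      intro x hx x' hx'
      have hx1 : (f (j x : E)).1 = y := hx
      have hx1' : (f (j x' : E)).1 = y := hx'
      have h2 : dist x x' = dist (j x : E) (j x' : E) := by
        rw [← Subtype.dist_eq, j.dist_eq]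
      rw [h2]
      refine Metric.dist_le_diam_of_mem (isCompact_univ.isBounded.subset (subset_univ _)) ?_ ?_
      · exact Prod.ext hx1 ((hfp _).trans (hpj x))
      · exact Prod.ext hx1' ((hfp _).trans (hpj x'))) y₀
    exact ⟨j m, hpj m, hm⟩
  · intro e e' hee he he'
    have h1 := hsm (y₀, p e)
    refine lt_of_lt_of_le (continuousMap_diam h1 (x := e) (x' := e') ?_ ?_) (min_le_right _ _)
    · exact Prod.ext he (hfp e)
    · exact Prod.ext he' ((hfp e').trans hee.symm)

theorem smallMapsSurjective_of_sphere (n : ℕ) (M : Type) [MetricSpace M] [CompactSpace M]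
    (h : M ≃ₜ sphere (0 : EuclideanSpace ℝ (Fin (n + 1))) 1) :
    ∃ ε > 0, SmallMapsSurjective M ε := by
  obtain ⟨ε, hε, hs⟩ := exists_surjective_of_small h
  refine ⟨ε, hε, fun g hg => hs g g.continuous fun x y hxy => ?_⟩
  exact continuousMap_diam (hg (g y)) hxy rfl

theorem injectivity_of_sphere (n : ℕ) :
    InjectivityAt (sphere (0 : EuclideanSpace ℝ (Fin (n + 1))) 1) (Real.sqrt 2 / 2) := by
  have hne : Nonempty (sphere (0 : EuclideanSpace ℝ (Fin (n + 1))) 1) := by
    obtain ⟨x, hx⟩ : (sphere (0 : EuclideanSpace ℝ (Fin (n + 1))) 1).Nonempty :=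
      NormedSpace.sphere_nonempty.2 zero_le_one
    exact ⟨⟨x, hx⟩⟩
  have hS : SmallMapsSurjective (sphere (0 : EuclideanSpace ℝ (Fin (n + 1))) 1) (Real.sqrt 2) :=
    fun g hg => surjective_of_small (Homeomorph.refl _) g g.continuous fun x y hxy =>
      continuousMap_diam (hg (g y)) hxy rfl
  have h := injectivity_of_round (sphere (0 : EuclideanSpace ℝ (Fin (n + 1))) 1)
    roundBelow_sphere hS
  rwa [min_eq_right (by
    have := Real.sqrt_nonneg 2
    linarith)] at h

theorem roundBelow_convex {H : Type*} [NormedAddCommGroup H] [InnerProductSpace ℝ H] {K : Set H}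
    (hK : Convex ℝ K) (r : ℝ) : RoundBelow K r := by
  intro x y hxy _
  refine ⟨⟨(1 / 2 : ℝ) • (x : H) + (1 / 2 : ℝ) • (y : H),
    hK x.2 y.2 (by norm_num) (by norm_num) (by norm_num)⟩, fun w _ _ => ?_⟩
  rw [Subtype.dist_eq, Subtype.dist_eq, Subtype.dist_eq, dist_eq_norm, dist_eq_norm, dist_eq_norm]
  set a : H := (x : H) - w with ha
  set b : H := (y : H) - w with hb
  have hab : a ≠ b := by
    intro h
    exact hxy (Subtype.ext (sub_left_injective h))
  have h1 : (1 / 2 : ℝ) • (x : H) + (1 / 2 : ℝ) • (y : H) - w = (1 / 2 : ℝ) • (a + b) := by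
    rw [ha, hb]
    module
  simp only
  rw [h1, norm_smul, Real.norm_of_nonneg (by norm_num : (0 : ℝ) ≤ 1 / 2)]
  have h2 := parallelogram_law_with_norm ℝ a b
  have h3 : 0 < ‖a - b‖ := norm_pos_iff.2 (sub_ne_zero.2 hab)
  have ha0 := norm_nonneg a
  have hb0 := norm_nonneg b
  have hs0 := norm_nonneg (a + b)
  rw [lt_max_iff]
  by_contra hcon
  push Not at hcon
  obtain ⟨h4, h5⟩ := hcon
  nlinarith

theorem injectivity_of_convex (H : Type) [NormedAddCommGroup H] [InnerProductSpace ℝ H]
    (K : Set H) [CompactSpace K] (hK : Convex ℝ K) (hne : K.Nonempty) (ε : ℝ) :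
    InjectivityAt K ε := by
  intro B E _ _ _ _ _ p f hiso hfp _
  set D := Metric.diam (univ : Set K) with hD
  suffices hsec : ∃ s : B → E, Continuous s ∧ ∀ b, p (s b) = b by
    obtain ⟨s, hs, hps⟩ := hsec
    exact ⟨⟨⟨s, hs⟩, hps⟩, fun h => injective_of_section hfp (s := ⟨s, hs⟩) hps h⟩
  refine exists_section (M := K) (p := p) (Y := ℝ) (r := 2 * (D + 1))
    (roundBelow_convex hK _) p.continuous hiso
    (φ := fun _ => 0) continuous_const 0 ?_ ?_
  · intro b
    obtain ⟨j⟩ := hiso b
    obtain ⟨x, hx⟩ := hne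
    exact ⟨j ⟨x, hx⟩, (j ⟨x, hx⟩).2, rfl⟩
  · intro e e' hee _ _
    obtain ⟨j⟩ := hiso (p e)
    have h1 : dist e e' = dist (j.symm ⟨e, rfl⟩) (j.symm ⟨e', hee.symm⟩) := by
      rw [j.symm.dist_eq, Subtype.dist_eq]
    rw [h1]
    have h2 : dist (j.symm ⟨e, rfl⟩) (j.symm ⟨e', hee.symm⟩) ≤ D :=
      Metric.dist_le_diam_of_mem isCompact_univ.isBounded (mem_univ _) (mem_univ _)
    linarith

end Pool.Agent.FEM
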