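import Pool.Agent.FEM.Basic
import Pool.Agent.Lib.Brouwer

/-!
# Maps of spheres with small fibres are surjective
-/

open Metric Set Topology Filter Module
open scoped InnerProductSpace ContDiff

namespace Pool.Agent.FEM

variable {V : Type*} [NormedAddCommGroup V] [InnerProductSpace ℝ V]

lemma inner_pos_of_dist {x y : V} (hx : ‖x‖ = 1) (hy : ‖y‖ = 1) (h : dist x y < Real.sqrt 2) :
    0 < ⟪x, y⟫_ℝ := by
  rw [dist_eq_norm] at h
  have h1 := norm_sub_sq_real x y
  rw [hx, hy] at h1
  have h2 : ‖x - y‖ ^ 2 < 2 := by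
    have h3 := norm_nonneg (x - y)
    have h4 : Real.sqrt 2 ^ 2 = 2 := Real.sq_sqrt (by norm_num)
    have h5 : ‖x - y‖ ^ 2 < Real.sqrt 2 ^ 2 := by
      apply pow_lt_pow_left₀ h h3 (by norm_num)
    linarith
  linarith

variable [FiniteDimensional ℝ V]

/-- A continuous map from the unit sphere of `V` to a space of smaller dimension identifies two
points whose inner product is not positive. -/
theorem no_small_map {U : Type*} [NormedAddCommGroup U] [InnerProductSpace ℝ U]
    [FiniteDimensional ℝ U] (hU : finrank ℝ U < finrank ℝ V) (g : sphere (0 : V) 1 → U)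
    (hg : Continuous g) (hsm : ∀ x y, g x = g y → 0 < ⟪(x : V), (y : V)⟫_ℝ) : False := by
  classical
  have : Nontrivial V := nontrivial_of_finrank_pos (R := ℝ) (by omega)
  have hSne : (univ : Set (sphere (0 : V) 1)).Nonempty := by
    have : (sphere (0 : V) 1).Nonempty := NormedSpace.sphere_nonempty.2 zero_le_one
    obtain ⟨x, hx⟩ := this
    exact ⟨⟨x, hx⟩, mem_univ _⟩
  -- uniform threshold
  obtain ⟨δ, hδ, hδs⟩ : ∃ δ > 0, ∀ x y, dist (g x) (g y) < δ → 0 < ⟪(x : V), (y : V)⟫_ℝ := by
    set K : Set (sphere (0 : V) 1 × sphere (0 : V) 1) :=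
      {q | ⟪(q.1 : V), (q.2 : V)⟫_ℝ ≤ 0} with hK
    have hKc : IsCompact K := by
      apply IsClosed.isCompact
      apply isClosed_le _ continuous_const
      fun_prop
    have hgc : Continuous fun q : sphere (0 : V) 1 × sphere (0 : V) 1 => dist (g q.1) (g q.2) :=
      (hg.comp continuous_fst).dist (hg.comp continuous_snd)
    rcases K.eq_empty_or_nonempty with hKe | hKn
    · refine ⟨1, one_pos, fun x y _ => ?_⟩
      by_contra hcon
      push Not at hcon
      have : (x, y) ∈ K := hcon
      rw [hKe] at this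
      exact this
    · obtain ⟨q, hq, hmin⟩ := hKc.exists_isMinOn hKn hgc.continuousOn
      refine ⟨dist (g q.1) (g q.2), ?_, ?_⟩
      · by_contra hcon
        push Not at hcon
        have h1 : g q.1 = g q.2 := dist_eq_zero.1 (le_antisymm hcon dist_nonneg)
        exact absurd (hsm _ _ h1) (not_lt.2 hq)
      · intro x y hxy
        by_contra hcon
        push Not at hcon
        have h3 : (x, y) ∈ K := hcon
        exact absurd hxy (not_lt.2 (hmin h3))
  -- finite net
  obtain ⟨t, -, htcov⟩ := isCompact_univ.elim_nhds_subcover (X := sphere (0 : V) 1)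
    (fun i => g ⁻¹' ball (g i) (δ / 2)) (fun i _ => by
      apply hg.continuousAt.preimage_mem_nhds
      exact ball_mem_nhds _ (by positivity))
  let bump : ∀ i : sphere (0 : V) 1, ContDiffBump (g i) := fun i =>
    ⟨δ / 2, δ, by positivity, by linarith⟩
  set G : U → V := fun u => ∑ i ∈ t, (bump i u) • (i : V) with hGdef
  have hGC : ContDiff ℝ 1 G := by
    apply ContDiff.sum
    intro i _
    exact (bump i).contDiff.smul contDiff_const
  have hGpos : ∀ x : sphere (0 : V) 1, 0 < ⟪G (g x), (x : V)⟫_ℝ := by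
    intro x
    rw [hGdef]
    simp only
    rw [sum_inner]
    have hnn : ∀ i ∈ t, 0 ≤ ⟪(bump i (g x)) • (i : V), (x : V)⟫_ℝ := by
      intro i _
      rw [real_inner_smul_left]
      rcases eq_or_lt_of_le ((bump i).nonneg (x := g x)) with h | h
      · rw [← h, zero_mul]
      · have hd : dist (g x) (g i) < δ := by
          by_contra hcon
          push Not at hcon
          have := (bump i).zero_of_le_dist (x := g x) hcon
          linarith
        have := hδs i x (by rw [dist_comm]; exact hd)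
        positivity
    have hx : x ∈ ⋃ i ∈ t, g ⁻¹' ball (g i) (δ / 2) := htcov (mem_univ x)
    simp only [mem_iUnion] at hx
    obtain ⟨i, hi, hxi⟩ := hx
    have hd : dist (g x) (g i) < δ / 2 := hxi
    refine Finset.sum_pos' hnn ⟨i, hi, ?_⟩
    rw [real_inner_smul_left]
    have h1 : bump i (g x) = 1 := (bump i).one_of_mem_closedBall (by
      rw [mem_closedBall]; exact hd.le)
    rw [h1, one_mul]
    exact hδs i x (by rw [dist_comm]; linarith)
  -- minimum
  have hfc : Continuous fun x : sphere (0 : V) 1 => ⟪G (g x), (x : V)⟫_ℝ :=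
    (hGC.continuous.comp hg).inner continuous_subtype_val
  obtain ⟨xm, -, hmin⟩ := isCompact_univ.exists_isMinOn hSne hfc.continuousOn
  set η := ⟪G (g xm), (xm : V)⟫_ℝ with hηdef
  have hη : 0 < η := hGpos xm
  -- perturbation
  have hdense := hGC.dense_compl_range_of_finrank_lt_finrank hU
  obtain ⟨w, hw, hwr⟩ := hdense.inter_open_nonempty (ball (0 : V) η) isOpen_ball
    ⟨0, mem_ball_self hη⟩
  set G' : U → V := fun u => G u - w with hG'
  have hG'c : Continuous G' := hGC.continuous.sub continuous_const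
  have hG'0 : ∀ u, G' u ≠ 0 := by
    intro u hu
    exact hwr ⟨u, sub_eq_zero.1 hu⟩
  have hG'pos : ∀ x : sphere (0 : V) 1, 0 < ⟪G' (g x), (x : V)⟫_ℝ := by
    intro x
    rw [hG']
    simp only [inner_sub_left]
    have h1 : η ≤ ⟪G (g x), (x : V)⟫_ℝ := hmin (mem_univ x)
    have h2 : ⟪w, (x : V)⟫_ℝ ≤ ‖w‖ * ‖(x : V)‖ := real_inner_le_norm _ _
    have h3 : ‖(x : V)‖ = 1 := by simp
    rw [h3, mul_one] at h2
    have h4 : ‖w‖ < η := by simpa using hw
    linarith
  -- Tietze extension of `g`
  obtain ⟨gh, hgh⟩ := ContinuousMap.exists_restrict_eq (isClosed_sphere (x := (0 : V)) (ε := 1))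
    (⟨g, hg⟩ : C(sphere (0 : V) 1, U))
  have hghS : ∀ x : sphere (0 : V) 1, gh (x : V) = g x := fun x =>
    congrArg (fun k : C(sphere (0 : V) 1, U) => k x) hgh
  -- the retraction
  set m : V → V := fun x => (max (1 / 2) ‖x‖)⁻¹ • x with hm
  have hmax : ∀ x : V, 0 < max (1 / 2) ‖x‖ := fun x => lt_of_lt_of_le (by norm_num) (le_max_left _ _)
  have hmc : Continuous m := by
    refine Continuous.smul (Continuous.inv₀ (continuous_const.max continuous_norm) ?_) continuous_id
    intro x
    exact (hmax x).ne'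
  set T : V → V := fun x => (min 1 (2 - 2 * ‖x‖)) • G' (gh (m x)) +
    (max 0 (2 * ‖x‖ - 1)) • m x with hT
  have hTc : Continuous T := by
    refine Continuous.add (Continuous.smul ?_ (hG'c.comp (gh.continuous.comp hmc)))
      (Continuous.smul ?_ hmc)
    · fun_prop
    · fun_prop
  have hTne : ∀ x ∈ closedBall (0 : V) 1, T x ≠ 0 := by
    intro x hx
    have hx1 : ‖x‖ ≤ 1 := by simpa using hx
    rcases le_total ‖x‖ (1 / 2) with h | h
    · have h1 : min 1 (2 - 2 * ‖x‖) = 1 := min_eq_left (by linarith)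
      have h2 : max 0 (2 * ‖x‖ - 1) = 0 := max_eq_left (by linarith)
      simp only [hT, h1, h2, one_smul, zero_smul, add_zero]
      exact hG'0 _
    · have h1 : min 1 (2 - 2 * ‖x‖) = 2 - 2 * ‖x‖ := min_eq_right (by linarith)
      have h2 : max 0 (2 * ‖x‖ - 1) = 2 * ‖x‖ - 1 := max_eq_right (by linarith)
      have hxpos : 0 < ‖x‖ := by linarith
      have hmx : m x = ‖x‖⁻¹ • x := by simp only [hm, max_eq_right h]
      have hmS : m x ∈ sphere (0 : V) 1 := by
        rw [mem_sphere_zero_iff_norm, hmx, norm_smul, norm_inv, norm_norm,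
          inv_mul_cancel₀ hxpos.ne']
      intro h0
      have h3 : ⟪T x, m x⟫_ℝ = 0 := by rw [h0, inner_zero_left]
      simp only [hT, h1, h2, inner_add_left, real_inner_smul_left] at h3
      have h4 := hG'pos ⟨m x, hmS⟩
      rw [← hghS] at h4
      simp only at h4
      have h5 : ⟪m x, m x⟫_ℝ = 1 := by
        rw [real_inner_self_eq_norm_sq, mem_sphere_zero_iff_norm.1 hmS]; norm_num
      rw [h5] at h3
      have h6 : 0 ≤ (2 - 2 * ‖x‖) * ⟪G' (gh (m x)), m x⟫_ℝ :=
        mul_nonneg (by linarith) h4.le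
      rcases eq_or_lt_of_le h with h7 | h7
      · rw [← h7] at h3 h6
        norm_num at h3
        exact h4.ne' h3
      · linarith
  refine Pool.Agent.Brouwer.no_retraction (E := V) one_pos
    (f := fun x => ‖T x‖⁻¹ • T x) ?_ ?_ ?_
  · refine ContinuousOn.smul (ContinuousOn.inv₀ hTc.norm.continuousOn ?_) hTc.continuousOn
    intro x hx
    exact norm_ne_zero_iff.2 (hTne x hx)
  · intro x hx
    rw [norm_smul, norm_inv, norm_norm, inv_mul_cancel₀ (norm_ne_zero_iff.2 (hTne x hx))]
  · intro x hx
    have h1 : min 1 (2 - 2 * ‖x‖) = 0 := by rw [hx]; norm_num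
    have h2 : max 0 (2 * ‖x‖ - 1) = 1 := by rw [hx]; norm_num
    have h3 : m x = x := by
      simp only [hm, hx]
      norm_num
    have h4 : T x = x := by
      simp only [hT, h1, h2, h3, zero_smul, one_smul, zero_add]
    rw [h4, hx, inv_one, one_smul]

/-- A self-map with small fibres (measured in the sphere) of a space homeomorphic to a sphere is
surjective. -/
theorem surjective_of_small {M : Type*} [TopologicalSpace M]
    (h : M ≃ₜ sphere (0 : V) 1) (f : M → M) (hf : Continuous f)
    (hsm : ∀ x y, f x = f y → dist (h x) (h y) < Real.sqrt 2) : Function.Surjective f := by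
  intro q
  by_contra hq
  push Not at hq
  have hv : ‖((h q : sphere (0 : V) 1) : V)‖ = 1 := by simp
  set v : V := ((h q : sphere (0 : V) 1) : V) with hvdef
  set st := stereographic hv with hst
  set k : sphere (0 : V) 1 → sphere (0 : V) 1 := fun s => h (f (h.symm s)) with hk
  have hkc : Continuous k := h.continuous.comp (hf.comp h.symm.continuous)
  have hks : ∀ s, k s ∈ st.source := by
    intro s
    rw [hst, stereographic_source]
    intro hs
    have h1 : h (f (h.symm s)) = h q := Subtype.ext (congrArg Subtype.val hs)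
    exact hq _ (h.injective h1)
  have hlt : finrank ℝ (Submodule.span ℝ {v})ᗮ < finrank ℝ V := by
    have h1 := Submodule.finrank_add_finrank_orthogonal (Submodule.span ℝ {v})
    have hv0 : v ≠ 0 := by
      intro h0
      rw [h0, norm_zero] at hv
      norm_num at hv
    have h2 : finrank ℝ (Submodule.span ℝ {v}) = 1 := finrank_span_singleton hv0
    omega
  refine no_small_map (V := V) (U := (Submodule.span ℝ {v})ᗮ) hlt (fun s => st (k s)) ?_ ?_
  · exact st.continuousOn.comp_continuous hkc hks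
  · intro x y hxy
    have h1 : k x = k y := st.injOn (hks x) (hks y) hxy
    have h2 : f (h.symm x) = f (h.symm y) := h.injective h1
    have h3 := hsm _ _ h2
    rw [h.apply_symm_apply, h.apply_symm_apply, Subtype.dist_eq] at h3
    exact inner_pos_of_dist (by simp) (by simp) h3

/-- A self-map with small fibres of a metric space homeomorphic to a sphere is surjective. -/
theorem exists_surjective_of_small {M : Type*} [MetricSpace M] [CompactSpace M]
    (h : M ≃ₜ sphere (0 : V) 1) : ∃ ε > 0, ∀ f : M → M, Continuous f →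
      (∀ x y, f x = f y → dist x y < ε) → Function.Surjective f := by
  have huc : UniformContinuous h := CompactSpace.uniformContinuous_of_continuous h.continuous
  obtain ⟨ε, hε, hεs⟩ := Metric.uniformContinuous_iff.1 huc (Real.sqrt 2) (by positivity)
  exact ⟨ε, hε, fun f hf hsm => surjective_of_small h f hf fun x y hxy => hεs (hsm x y hxy)⟩

/-- The unit sphere with the distance of the ambient Euclidean space has round balls up to radius
`√2`. -/
theorem roundBelow_sphere : RoundBelow (sphere (0 : V) 1) (Real.sqrt 2) := by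
  intro x y hxy hd
  have hx : ‖(x : V)‖ = 1 := by simp
  have hy : ‖(y : V)‖ = 1 := by simp
  have hin : 0 < ⟪(x : V), (y : V)⟫_ℝ := inner_pos_of_dist hx hy hd
  have hs2 := norm_add_sq_real (x : V) (y : V)
  have hd2 := norm_sub_sq_real (x : V) (y : V)
  rw [hx, hy] at hs2 hd2
  have hsub : 0 < ‖(x : V) - y‖ := norm_pos_iff.2 (sub_ne_zero.2 fun h => hxy (Subtype.ext h))
  have hspos : 0 < ‖(x : V) + y‖ := by
    have h0 := norm_nonneg ((x : V) + y)
    rcases eq_or_lt_of_le h0 with h | h
    · rw [← h] at hs2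
      nlinarith
    · exact h
  have hslt : ‖(x : V) + y‖ < 2 := by
    by_contra hcon
    push Not at hcon
    nlinarith
  set s := ‖(x : V) + y‖ with hsdef
  have hzn : ‖s⁻¹ • ((x : V) + y)‖ = 1 := by
    rw [norm_smul, norm_inv, hsdef, norm_norm, inv_mul_cancel₀ hspos.ne']
  refine ⟨⟨s⁻¹ • ((x : V) + y), by rw [mem_sphere_zero_iff_norm]; exact hzn⟩, fun w hxw hyw => ?_⟩
  have hw : ‖(w : V)‖ = 1 := by simp
  have hxw' : 0 < ⟪(x : V), (w : V)⟫_ℝ := inner_pos_of_dist hx hw hxw
  have hyw' : 0 < ⟪(y : V), (w : V)⟫_ℝ := inner_pos_of_dist hy hw hyw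
  have hzw : ⟪s⁻¹ • ((x : V) + y), (w : V)⟫_ℝ =
      s⁻¹ * (⟪(x : V), (w : V)⟫_ℝ + ⟪(y : V), (w : V)⟫_ℝ) := by
    rw [real_inner_smul_left, inner_add_left]
  have hsi : 1 / 2 < s⁻¹ := by
    rw [one_div]
    exact (inv_lt_inv₀ (by norm_num) hspos).2 hslt
  have key : ∀ a b : V, ‖a‖ = 1 → ‖b‖ = 1 → ⟪a, (w : V)⟫_ℝ < ⟪b, (w : V)⟫_ℝ →
      ‖b - w‖ < ‖a - w‖ := by
    intro a b ha hb hab
    have h1 := norm_sub_sq_real a (w : V)
    have h2 := norm_sub_sq_real b (w : V)
    rw [ha, hw] at h1
    rw [hb, hw] at h2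
    have h3 : ‖b - w‖ ^ 2 < ‖a - w‖ ^ 2 := by linarith
    exact lt_of_pow_lt_pow_left₀ 2 (norm_nonneg _) h3
  rw [lt_max_iff, Subtype.dist_eq, Subtype.dist_eq, Subtype.dist_eq, dist_eq_norm, dist_eq_norm,
    dist_eq_norm]
  rcases le_total ⟪(x : V), (w : V)⟫_ℝ ⟪(y : V), (w : V)⟫_ℝ with h | h
  · left
    apply key _ _ hx hzn
    rw [hzw]
    nlinarith
  · right
    apply key _ _ hy hzn
    rw [hzw]
    nlinarith

end Pool.Agent.FEM
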